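import Pool.Agent.V11187.MG.KI

/-!
# The kernels of the assembly maps in K-theory of groups `N ⋊ Γ`, `Γ` arbitrary

`A` is any ring and `kgr A` is the functor `G ↦ K₁(A[G])`, not tensored with `ℚ`; `kQ A` is the functor
`G ↦ ℚ ⊗ K₁(A[G])`. `H` is a functor from groups to abelian groups on which inner automorphisms act
trivially, for instance a homology theory `G ↦ H_n(BG)`, and `α : H ⟶ kgr A` is natural.

`Γ` is an arbitrary group, acting on a set `V` (with arbitrary stabilizers) and on a group `N` with
endomorphisms `e_S`, `S ⊆ V`, such that `e_S e_T = e_{S ∩ T}` and `γ e_S = e_{γ S} γ`, and each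
element of `N` is fixed by `e_S` for some finite `S`; `N_S` is the image of `e_S` and `Γ_σ` is the
group of the elements of `Γ` which fix the elements of `σ`.

* Let `C` be a `Γ`-invariant set of finite subsets of `V` closed under subsets, and let `q` be a
common multiple of the numbers of the permutations of `σ`, `σ ∈ C`, which are restrictions of elements
of `Γ`. If `x ∈ H(N ⋊ Γ)` is a sum of elements from the groups `H(N_σ ⋊ Γ_σ)`, `σ ∈ C`, and
`α(x) = 0`, then `q x` is a sum of elements from the kernels of `α` for the groups `N_σ ⋊ Γ_σ`,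
`σ ∈ C`.

* For every family `α_b : H_{d(b)}(G; ℚ) → ℚ ⊗ K₁(A[G × T])`, `b ∈ B`, of transformations natural in
the group `G`, the kernel of the sum of the `α_b` for `N ⋊ Γ` is generated by the images of the
kernels for the subgroups `N_σ ⋊ Γ_σ`, where `σ` runs through the finite subsets of `V` without two
elements `u ≠ v` such that `N` is the amalgamated product of `N_{V - u}` and `N_{V - v}` along
`N_{V - {u, v}}`.
-/

namespace Pool.Agent.Results.MP_c052b4_al.SupportKernels

open CategoryTheory Pool.Agent.Y483 Pool.Agent.Y75.MQ Pool.Agent.Y477.IW Pool.Agent.Y483.PW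
  Pool.Agent.Y483.PI Pool.Agent.V11187.MG

theorem result (A : Type) [Ring A] {Γ N V : Type} [Group Γ] [Group N] [MulAction Γ V]
    (s : Sys Γ N V) :
    (∀ C : Set (Finset V), IsFam Γ C → ∀ q : ℕ, (∀ σ ∈ C, permNo Γ σ ∣ q) →
      KerFormula (kgr A) s C q) ∧
    ∀ (T : Type) [Group T] {B : Type} {d : B → ℕ} (α : ∀ b : B, hq (d b) ⟶ timesF T ⋙ kQ A),
      GenSub α (fun σ : s.Cl => s.supG σ.1) :=
  ⟨fun C hC q hq => kerFormula (hasPTI_kgr A) s C hC q hq,
    fun T _ _ _ α => sys_gen ((hasPT_kQ A).times T) α s⟩

end Pool.Agent.Results.MP_c052b4_al.SupportKernels
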